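import Pool.Agent.Q169.RC.Good

/-!
# The Singer conjecture for reflection manifolds with coloured exceptional vertices

Let the flag complex `L` of the graph `G` on `0, ..., N-1` be a homology sphere of dimension `n - 1` (over the reals and
modulo `2`, for example an integral homology sphere or a flag triangulation of the sphere). The Davis complex of the
right-angled Coxeter group `W G` is then a contractible homology `n`-manifold, and the quotients by torsion-free
subgroups of finite index are closed aspherical (homology) `n`-manifolds. The Singer conjecture for them says that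
the `ℓ²`-homology of `W G` vanishes in the degrees `i ≠ n / 2`.

For a simplex `T` let `χ_T` be the Euler characteristic of the right-angled Coxeter group of the link of `T`. We prove
the Singer conjecture under a condition which can be checked from the numbers `χ_T` and colourings of graphs:
* `T` is good if its link has odd dimension, or if its link has even dimension `2 k` and the vertices `v` of the link
  with `χ_(T ∪ v) ≠ 0` are colourable with `k + 1` colours (or if the link is in the class `AM` of the starting
  library);
* there is a set `B` of vertices, colourable with `n / 2 + 1` (rounded down) colours, such that all simplices with a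
  vertex outside `B` are good and, if `n` is odd, `χ_v = 0` for the vertices `v` outside `B`.
-/

set_option autoImplicit false

namespace Pool.Agent.Results.MP_f80465_gt.ColouredExceptionalVertices

open Finset Pool.Agent.W907.SG Pool.Agent.W907.SM Pool.Agent.TH652.Above Pool.Agent.Q169.RC

/-- the flag complex of a graph: its simplices are the cliques -/
noncomputable def flagComplex {n : ℕ} (G : SimpleGraph (Fin n)) : Finset (Finset (Fin n)) := by
  classical exact univ.filter (fun T => G.IsClique (T : Set (Fin n)))

/-! ### homology spheres -/

/-- the chain `c`, with coefficients modulo `2`, is supported on the faces of `K` with `j`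
vertices -/
def SupportedOn {N : ℕ} (K : Finset (Finset (Fin N))) (j : ℕ) (c : Finset (Fin N) → ZMod 2) :
    Prop :=
  ∀ σ, c σ ≠ 0 → σ ∈ K ∧ σ.card = j

/-- the boundary of a chain (the augmentation is included: the empty face has dimension `-1`) -/
def boundary {N : ℕ} (c : Finset (Fin N) → ZMod 2) (ρ : Finset (Fin N)) : ZMod 2 :=
  ∑ v ∈ ρᶜ, c (insert v ρ)

/-- the reduced mod `2` homology of `K` vanishes in dimension `j - 1` -/
def AcyclicAt {N : ℕ} (K : Finset (Finset (Fin N))) (j : ℕ) : Prop :=
  ∀ c : Finset (Fin N) → ZMod 2, SupportedOn K j c → (∀ ρ, boundary c ρ = 0) →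
    ∃ b, SupportedOn K (j + 1) b ∧ ∀ ρ, c ρ = boundary b ρ

/-- the link of the face `σ` -/
def link {N : ℕ} (K : Finset (Finset (Fin N))) (σ : Finset (Fin N)) : Finset (Finset (Fin N)) :=
  univ.filter (fun τ => Disjoint τ σ ∧ τ ∪ σ ∈ K)

/-- mod `2` homology spheres of dimension `d - 1`: the complex `K` contains the empty face and is closed under
subsets, and the link of every face `σ` (also of the empty face) has the reduced mod `2` homology of a sphere of
dimension `d - 1 - |σ|` -/
def IsHomologySphere {N : ℕ} (K : Finset (Finset (Fin N))) (d : ℕ) : Prop :=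
  (∅ ∈ K ∧ ∀ σ ∈ K, ∀ τ : Finset (Fin N), τ ⊆ σ → τ ∈ K) ∧ (∀ σ ∈ K, σ.card ≤ d) ∧
    (∀ σ ∈ K, ∀ j, j + σ.card ≠ d → AcyclicAt (link K σ) j) ∧
    ∀ σ ∈ K, ∃ z : Finset (Fin N) → ZMod 2, z ≠ 0 ∧ SupportedOn (link K σ) (d - σ.card) z ∧
      (∀ ρ, boundary z ρ = 0) ∧
      ∀ z', SupportedOn (link K σ) (d - σ.card) z' → (∀ ρ, boundary z' ρ = 0) → z' = 0 ∨ z' = z

/-! ### the theorem -/

theorem mem_flag {n : ℕ} (G : SimpleGraph (Fin n)) (T : Finset (Fin n)) :
    T ∈ flagComplex G ↔ G.IsClique (T : Set (Fin n)) := by
  classical
  unfold flagComplex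
  simp

/-- Let the flag complex of `G` be a homology sphere of dimension `n - 1` over the reals (`HSph n G`) and modulo `2`.
Let `B` be a set of vertices with a colouring by `n / 2 + 1` colours such that adjacent vertices of `B` have different
colours. Assume that every simplex with a vertex outside `B` is good and that, if `n` is odd, the Euler characteristic
`χ_v` of the right-angled Coxeter group of the link of `v` is zero for each vertex `v` outside `B`. Then the Davis
complex of `W G` has no nonzero `ℓ²` harmonic `i`-chains for `i ≠ n / 2` (the Singer conjecture), and for every full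
subcomplex `A` the Davis complex of the right-angled Coxeter group of `A` has no nonzero `ℓ²` harmonic `i`-chains for
`i > n / 2`. -/
theorem result (n N : ℕ) (G : SimpleGraph (Fin N)) (hR : HSph n G) (h2 : IsHomologySphere (flagComplex G) n)
    (B : Set (Fin N)) (κ : Fin N → Fin (n / 2 + 1))
    (hκ : ∀ u v, u ∈ B → v ∈ B → G.Adj u v → κ u ≠ κ v)
    (hB : ∀ v, v ∉ B → (∀ T : Finset (Fin N), v ∈ T → G.IsClique (T : Set (Fin N)) → Good n G T) ∧
      (Odd n → chiS G (G.neighborSet v) = 0)) :
    (∀ i : ℕ, 2 * i ≠ n → L2Van G i) ∧
    ∀ (A : Set (Fin N)) [Fintype A] (i : ℕ), n < 2 * i → L2Van (G.induce A) i := by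
  have hH : Pool.Agent.Y131.KS.HSph (flagComplex G) n := ⟨h2.1, h2.2.1, h2.2.2.1, h2.2.2.2⟩
  have hQ := Q_of_good (k := n / 2) (by omega) G (flagComplex G) (mem_flag G) hH hR B κ hκ hB
  refine ⟨fun i hi => ?_, fun A _ i hi => hQ.2 A i hi _ _⟩
  exact singer_of_above hR (fun j hj => (lv_univ G j).1 (hQ.2 Set.univ j hj) _ _) i hi

end Pool.Agent.Results.MP_f80465_gt.ColouredExceptionalVertices
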