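import Pool.Agent.Q173.PT.Middle

/-!
# The Singer conjecture and the mean square distance from the middle degree
-/

set_option autoImplicit false

open Pool.Agent.Q173.PT

namespace Pool.Agent.Results.MP_f80465_gt.MeanSquare

universe u

theorem result {V : Type u} (G : ClosedData V) (hG : G.IsKnown) :
    (∀ M N, G.total (G.prod M N) = G.total M * G.total N ∧
      G.spread (G.prod M N) = G.spread M * G.total N + G.total M * G.spread N) ∧
    (G.Singer ↔ ∀ ε : ℝ, 0 < ε → ∀ B : ℕ, ∃ m, B ≤ m ∧ ∀ M, G.dim M = 2 * m →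
      G.spread M ≤ ε * m * G.total M) :=
  ⟨fun M N => ⟨ClosedData.total_prod hG M N, ClosedData.spread_prod hG M N⟩, hG.criterion⟩

end Pool.Agent.Results.MP_f80465_gt.MeanSquare
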